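import Pool.Agent.H37.UMD.Stmts

/-!
# Ultimate matching: module DTM, the deterministic theorem
-/

set_option autoImplicit false

open MeasureTheory ProbabilityTheory

namespace Pool.UMD

/-! ### Integrals over the period box -/

theorem DTM_box_meas (m : ℕ) : MeasurableSet (Box m) := measurableSet_Ico.prod measurableSet_Ico

theorem DTM_box_vol (m : ℕ) : volume (Box m) = ENNReal.ofReal (2 * m) * ENNReal.ofReal (2 * m) := by
  unfold Box
  rw [Measure.volume_eq_prod, Measure.prod_prod, Real.volume_Ico, sub_zero]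

theorem DTM_box_fin (m : ℕ) : IsFiniteMeasure (volume.restrict (Box m)) := by
  refine ⟨?_⟩
  rw [Measure.restrict_apply_univ, DTM_box_vol]
  exact ENNReal.mul_lt_top ENNReal.ofReal_lt_top ENNReal.ofReal_lt_top

theorem DTM_box_one (m : ℕ) : ∫ _x in Box m, (1 : ℝ) = 4 * (m : ℝ) ^ 2 := by
  rw [setIntegral_const, measureReal_def, DTM_box_vol, ENNReal.toReal_mul,
    ENNReal.toReal_ofReal (by positivity)]
  simp only [smul_eq_mul]
  ring

theorem DTM_ib {X : Type*} [MeasurableSpace X] (ν : Measure X) [IsFiniteMeasure ν] {f : X → ℝ}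
    {M : ℝ} (hm : Measurable f) (hb : ∀ x, |f x| ≤ M) : Integrable f ν :=
  Integrable.of_bound hm.aestronglyMeasurable M (ae_of_all _ fun x => by
    rw [Real.norm_eq_abs]; exact hb x)

theorem DTM_ibox (m : ℕ) {f : ℝ × ℝ → ℝ} {M : ℝ} (hf : Bd f M) :
    Integrable f (volume.restrict (Box m)) := by
  have := DTM_box_fin m
  exact DTM_ib _ hf.1 hf.2

theorem DTM_fub (m : ℕ) {f : ℝ × ℝ → ℝ} {M : ℝ} (hf : Bd f M) :
    ∫ x in Box m, f x =
      ∫ x in Set.Ico (0 : ℝ) (2 * m), ∫ y in Set.Ico (0 : ℝ) (2 * m), f (x, y) := by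
  have h := DTM_ibox m hf
  unfold Box at h ⊢
  rw [Measure.volume_eq_prod] at h ⊢
  exact setIntegral_prod f h

theorem DTM_fub' (m : ℕ) {f : ℝ × ℝ → ℝ} {M : ℝ} (hf : Bd f M) :
    ∫ x in Box m, f x =
      ∫ y in Set.Ico (0 : ℝ) (2 * m), ∫ x in Set.Ico (0 : ℝ) (2 * m), f (x, y) := by
  rw [DTM_fub m hf]
  have h := DTM_ibox m hf
  unfold Box at h
  rw [Measure.volume_eq_prod, ← Measure.prod_restrict] at h
  exact integral_integral_swap h

theorem DTM_p1 (f : ℝ → ℝ) (T : ℝ) (hT : 0 ≤ T) (hf : Function.Periodic f T) (v : ℝ) :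
    ∫ x in Set.Ico 0 T, f (x + v) = ∫ x in Set.Ico 0 T, f x := by
  rw [integral_Ico_eq_integral_Ioc, integral_Ico_eq_integral_Ioc,
    ← intervalIntegral.integral_of_le hT, ← intervalIntegral.integral_of_le hT,
    intervalIntegral.integral_comp_add_right, zero_add]
  have h := hf.intervalIntegral_add_eq v 0
  rw [zero_add] at h
  rw [add_comm T v]
  exact h

theorem DTM_trans (m : ℕ) {f : ℝ × ℝ → ℝ} {M : ℝ} (hf : Bd f M) (hp : Per m f) (v : ℝ × ℝ) :
    ∫ x in Box m, f (x + v) = ∫ x in Box m, f x := by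
  have hT : (0 : ℝ) ≤ 2 * m := by positivity
  have hf' : Bd (fun x => f (x + v)) M :=
    ⟨hf.1.comp (measurable_id.add_const v), fun x => hf.2 _⟩
  rw [DTM_fub m hf', DTM_fub m hf]
  have h1 : ∀ x : ℝ, ∫ y in Set.Ico (0 : ℝ) (2 * m), f ((x, y) + v) =
      ∫ y in Set.Ico (0 : ℝ) (2 * m), f (x + v.1, y) := by
    intro x
    have := DTM_p1 (fun y => f (x + v.1, y)) (2 * m) hT (fun y => (hp (x + v.1, y)).2) v.2
    exact this
  simp only [h1]
  have h2 := DTM_p1 (fun x => ∫ y in Set.Ico (0 : ℝ) (2 * m), f (x, y)) (2 * m) hT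
    (fun x => by
      show ∫ y in Set.Ico (0 : ℝ) (2 * m), f (x + 2 * m, y) = _
      congr 1
      funext y
      exact (hp (x, y)).1) v.1
  exact h2

theorem DTM_ap_meas (A : Mat) : Measurable (fun z : ℝ × ℝ => A.ap z) := by
  unfold Mat.ap
  exact ((measurable_fst.const_mul _).add (measurable_snd.const_mul _)).prodMk
    ((measurable_fst.const_mul _).add (measurable_snd.const_mul _))

theorem DTM_avg (m : ℕ) {f : ℝ × ℝ → ℝ} {M : ℝ} (hf : Bd f M) (hp : Per m f) (A : Mat) :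
    ∫ a in Box m, mu f a A = ∫ x in Box m, f x := by
  have := DTM_box_fin m
  unfold mu
  have hm : Measurable (Function.uncurry fun (a z : ℝ × ℝ) => f (a + A.ap z)) :=
    hf.1.comp (measurable_fst.add ((DTM_ap_meas A).comp measurable_snd))
  have hi : Integrable (Function.uncurry fun (a z : ℝ × ℝ) => f (a + A.ap z))
      ((volume.restrict (Box m)).prod g2) := DTM_ib _ hm fun x => hf.2 _
  rw [integral_integral_swap hi]
  have h1 : ∀ z : ℝ × ℝ, ∫ a in Box m, f (a + A.ap z) = ∫ x in Box m, f x :=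
    fun z => DTM_trans m hf hp (A.ap z)
  simp only [h1]
  rw [integral_const]
  simp

/-- the Gibbs inequality for a finite measure -/
theorem DTM_gibbs {X : Type*} [MeasurableSpace X] (ν : Measure X) [IsFiniteMeasure ν]
    (f Z : X → ℝ) (B : ℝ) (hf : Measurable f) (hZ : Measurable Z)
    (hfb : ∀ x, 1 ≤ f x ∧ f x ≤ B) (hZb : ∀ x, 1 ≤ Z x ∧ Z x ≤ B)
    (hν : 0 < ∫ _x, (1 : ℝ) ∂ν) :
    ∫ x, f x * (Real.log (Z x) - Real.log (f x)) ∂ν ≤
      (∫ x, f x ∂ν) * (Real.log (∫ x, Z x ∂ν) - Real.log (∫ x, f x ∂ν)) := by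
  have hX : Nonempty X := by
    by_contra hcon
    rw [not_nonempty_iff] at hcon
    have : ∫ _x, (1 : ℝ) ∂ν = 0 := by
      rw [Measure.eq_zero_of_isEmpty ν]; simp
    linarith
  obtain ⟨x₀⟩ := hX
  have hB : 1 ≤ B := (hfb x₀).1.trans (hfb x₀).2
  have hi1 : Integrable f ν := DTM_ib _ (M := B) hf fun g => by
    rw [abs_of_nonneg (by linarith [(hfb g).1])]; exact (hfb g).2
  have hi2 : Integrable Z ν := DTM_ib _ (M := B) hZ fun g => by
    rw [abs_of_nonneg (by linarith [(hZb g).1])]; exact (hZb g).2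
  have hlog : ∀ g, 0 ≤ Real.log (f g) ∧ Real.log (f g) ≤ B := fun g =>
    ⟨Real.log_nonneg (hfb g).1, (Real.log_le_sub_one_of_pos (by linarith [(hfb g).1])).trans
      (by linarith [(hfb g).2])⟩
  have hlog2 : ∀ g, 0 ≤ Real.log (Z g) ∧ Real.log (Z g) ≤ B := fun g =>
    ⟨Real.log_nonneg (hZb g).1, (Real.log_le_sub_one_of_pos (by linarith [(hZb g).1])).trans
      (by linarith [(hZb g).2])⟩
  have hi3 : Integrable (fun g => f g * (Real.log (Z g) - Real.log (f g))) ν := by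
    refine DTM_ib _ (M := B * B) (hf.mul ((Real.measurable_log.comp hZ).sub
      (Real.measurable_log.comp hf))) fun g => ?_
    rw [abs_mul]
    refine mul_le_mul ?_ ?_ (abs_nonneg _) (by linarith)
    · rw [abs_of_nonneg (by linarith [(hfb g).1])]; exact (hfb g).2
    · rw [abs_le]
      constructor
      · linarith [(hlog g).2, (hlog2 g).1]
      · linarith [(hlog g).1, (hlog2 g).2]
  have hI0 : 0 < ∫ g, f g ∂ν :=
    hν.trans_le (integral_mono (integrable_const _) hi1 fun g => (hfb g).1)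
  have hE : 0 < ∫ g, Z g ∂ν :=
    hν.trans_le (integral_mono (integrable_const _) hi2 fun g => (hZb g).1)
  set I := ∫ g, f g ∂ν with hIdef
  set E := ∫ g, Z g ∂ν with hEdef
  have key : ∀ g, f g * (Real.log (Z g) - Real.log (f g)) ≤
      (I / E) * Z g - f g + (Real.log E - Real.log I) * f g := by
    intro g
    have hf0 : 0 < f g := by linarith [(hfb g).1]
    have hZ0 : 0 < Z g := by linarith [(hZb g).1]
    have h1 : Real.log (Z g * I / (f g * E)) ≤ Z g * I / (f g * E) - 1 :=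
      Real.log_le_sub_one_of_pos (by positivity)
    rw [Real.log_div (by positivity) (by positivity), Real.log_mul hZ0.ne' hI0.ne',
      Real.log_mul hf0.ne' hE.ne'] at h1
    have h2 := mul_le_mul_of_nonneg_left h1 hf0.le
    have h3 : f g * (Z g * I / (f g * E) - 1) = (I / E) * Z g - f g := by
      field_simp
    rw [h3] at h2
    nlinarith [h2]
  have hi4 : Integrable (fun g => (I / E) * Z g - f g + (Real.log E - Real.log I) * f g) ν :=
    ((hi2.const_mul _).sub hi1).add (hi1.const_mul _)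
  calc ∫ g, f g * (Real.log (Z g) - Real.log (f g)) ∂ν ≤ ∫ g, ((I / E) * Z g - f g +
      (Real.log E - Real.log I) * f g) ∂ν := integral_mono hi3 hi4 key
    _ = (I / E) * E - I + (Real.log E - Real.log I) * I := by
      have e1 : ∫ g, ((I / E) * Z g - f g + (Real.log E - Real.log I) * f g) ∂ν =
          ∫ g, ((I / E) * Z g - f g) ∂ν + ∫ g, (Real.log E - Real.log I) * f g ∂ν :=
        integral_add ((hi2.const_mul _).sub hi1) (hi1.const_mul _)
      rw [e1, integral_sub (hi2.const_mul _) hi1, integral_const_mul, integral_const_mul]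
    _ = I * (Real.log E - Real.log I) := by
      rw [div_mul_cancel₀ _ hE.ne']; ring

/-- the Poincare inequality on the box -/
theorem DTM_poin (m : ℕ) (hm : 1 ≤ m) {G G1 G2 : ℝ × ℝ → ℝ} {T : ℝ} (hG : Sm G G1 G2 T) :
    ∃ c : ℝ, ∫ x in Box m, |G x - c| ≤
      2 * m * ((∫ x in Box m, |G1 x|) + ∫ x in Box m, |G2 x|) := by
  have hm0 : (0 : ℝ) < 2 * m := by
    have : (0 : ℝ) < m := by exact_mod_cast hm
    linarith
  set S : Set ℝ := Set.Ico (0 : ℝ) (2 * m) with hS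
  have hSm : MeasurableSet S := measurableSet_Ico
  have hSf : IsFiniteMeasure (volume.restrict S) := by
    refine ⟨?_⟩
    rw [Measure.restrict_apply_univ, hS, Real.volume_Ico]
    exact ENNReal.ofReal_lt_top
  have hS1 : ∫ _x in S, (1 : ℝ) = 2 * m := by
    rw [setIntegral_const, measureReal_def, hS, Real.volume_Ico,
      ENNReal.toReal_ofReal (by linarith)]
    simp
  have hSc : ∀ c : ℝ, ∫ _x in S, c = c * (2 * m) := by
    intro c
    rw [← hS1, ← integral_const_mul]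
    simp
  -- derivative along the axes
  have d1 : ∀ y t : ℝ, HasDerivAt (fun s => G (s, y)) (G1 (t, y)) t := by
    intro y t
    have h := hG.der (0, y) (1, 0) t
    simpa using h
  have d2 : ∀ x t : ℝ, HasDerivAt (fun s => G (x, s)) (G2 (x, t)) t := by
    intro x t
    have h := hG.der (x, 0) (0, 1) t
    simpa using h
  have hab : Bd (fun x => |G1 x|) T ∧ Bd (fun x => |G2 x|) T :=
    ⟨⟨hG.c1.measurable.abs, fun x => by rw [abs_abs]; exact hG.b1 x⟩,
      ⟨hG.c2.measurable.abs, fun x => by rw [abs_abs]; exact hG.b2 x⟩⟩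
  -- one dimensional bound
  have key : ∀ (r r' : ℝ → ℝ), (∀ t, HasDerivAt r (r' t) t) → Continuous r' →
      ∀ x ∈ S, ∀ y ∈ S, |r x - r y| ≤ ∫ s in S, |r' s| := by
    intro r r' hr hc x hx y hy
    have h1 : ∫ s in y..x, r' s = r x - r y :=
      intervalIntegral.integral_eq_sub_of_hasDerivAt (fun t _ => hr t)
        (hc.intervalIntegrable _ _)
    rw [← h1]
    have h2 : |∫ s in y..x, r' s| ≤ ∫ s in Set.uIoc y x, |r' s| := by
      have := intervalIntegral.norm_integral_le_integral_norm_uIoc (f := r') (a := y) (b := x)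
        (μ := volume)
      simpa only [Real.norm_eq_abs] using this
    refine h2.trans ?_
    refine setIntegral_mono_set ?_ ?_ ?_
    · have h3 : IntegrableOn (fun s => |r' s|) (Set.Icc 0 (2 * m)) volume :=
        Continuous.integrableOn_Icc hc.abs
      exact h3.mono_set Set.Ico_subset_Icc_self
    · exact ae_of_all _ fun s => abs_nonneg _
    · refine LE.le.eventuallyLE ?_
      intro s hs
      rw [Set.mem_uIoc] at hs
      rw [hS, Set.mem_Ico] at hx hy ⊢
      rcases hs with hs | hs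
      · exact ⟨hy.1.trans hs.1.le, hs.2.trans_lt hx.2⟩
      · exact ⟨hx.1.trans hs.1.le, hs.2.trans_lt hy.2⟩
  set I : ℝ → ℝ := fun y => ∫ s in S, |G1 (s, y)| with hI
  set J : ℝ → ℝ := fun x => ∫ s in S, |G2 (x, s)| with hJ
  have hI2 : ∫ x in Box m, |G1 x| = ∫ y in S, I y := DTM_fub' m hab.1
  have hJ2 : ∫ x in Box m, |G2 x| = ∫ x in S, J x := DTM_fub m hab.2
  have hT0 : 0 ≤ T := (abs_nonneg _).trans (hG.b0 0)
  have hIm : Measurable I := by
    have : StronglyMeasurable (Function.uncurry fun (y s : ℝ) => |G1 (s, y)|) :=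
      (hG.c1.abs.comp (continuous_snd.prodMk continuous_fst)).stronglyMeasurable
    exact (this.integral_prod_right (ν := volume.restrict S)).measurable
  have hJm : Measurable J := by
    have : StronglyMeasurable (Function.uncurry fun (x s : ℝ) => |G2 (x, s)|) :=
      hG.c2.abs.stronglyMeasurable
    exact (this.integral_prod_right (ν := volume.restrict S)).measurable
  have hb : ∀ (r : ℝ → ℝ), (∀ s, |r s| ≤ T) → Measurable r →
      |(∫ s in S, |r s|)| ≤ T * (2 * m) := by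
    intro r hr hrm
    rw [abs_of_nonneg (integral_nonneg fun s => abs_nonneg _)]
    calc ∫ s in S, |r s| ≤ ∫ _s in S, T := integral_mono
          (DTM_ib _ (M := T) hrm.abs fun s => by rw [abs_abs]; exact hr s)
          (integrable_const _) hr
      _ = T * (2 * m) := hSc T
  have hIb : ∀ y, |I y| ≤ T * (2 * m) := fun y => hb _ (fun s => hG.b1 _)
    (hG.c1.comp (continuous_id.prodMk continuous_const)).measurable
  have hJb : ∀ x, |J x| ≤ T * (2 * m) := fun x => hb _ (fun s => hG.b2 _)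
    (hG.c2.comp (continuous_const.prodMk continuous_id)).measurable
  have hIi : Integrable I (volume.restrict S) := DTM_ib _ hIm hIb
  have hJi : Integrable J (volume.restrict S) := DTM_ib _ hJm hJb
  -- a good first coordinate
  obtain ⟨y₁, hy₁, hJy⟩ : ∃ y₁ ∈ S, 2 * m * J y₁ ≤ ∫ x in S, J x := by
    by_contra hcon
    push Not at hcon
    have h1 : ∫ x in S, (2 * m * J x - ∫ x in S, J x) = 0 := by
      rw [integral_sub (hJi.const_mul _) (integrable_const _), integral_const_mul]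
      rw [hSc]; ring
    have h2 : 0 < ∫ x in S, (2 * m * J x - ∫ x in S, J x) := by
      rw [integral_pos_iff_support_of_nonneg_ae]
      · have : S ⊆ Function.support (fun x => 2 * m * J x - ∫ x in S, J x) := by
          intro x hx
          have := hcon x hx
          simp only [Function.mem_support]
          linarith
        calc 0 < volume S := by
              rw [hS, Real.volume_Ico]; simpa using hm0
          _ = (volume.restrict S) S := by rw [Measure.restrict_apply_self]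
          _ ≤ _ := measure_mono this
      · refine (ae_restrict_iff' hSm).mpr (ae_of_all _ fun x hx => ?_)
        have := hcon x hx
        simp only [Pi.zero_apply]
        linarith
      · exact (hJi.const_mul _).sub (integrable_const _)
    linarith
  refine ⟨G (y₁, 0), ?_⟩
  have h0S : (0 : ℝ) ∈ S := ⟨le_refl _, hm0⟩
  have hGc : Bd (fun x => |G x - G (y₁, 0)|) (2 * T) := by
    refine ⟨(hG.c0.measurable.sub_const _).abs, fun x => ?_⟩
    rw [abs_abs]
    calc |G x - G (y₁, 0)| ≤ |G x| + |G (y₁, 0)| := abs_sub _ _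
      _ ≤ 2 * T := by linarith [hG.b0 x, hG.b0 (y₁, 0)]
  have hpt : ∀ x ∈ Box m, |G x - G (y₁, 0)| ≤ I x.2 + J y₁ := by
    intro x hx
    have hx1 : x.1 ∈ S := hx.1
    have hx2 : x.2 ∈ S := hx.2
    have a1 := key (fun s => G (s, x.2)) (fun s => G1 (s, x.2)) (fun t => d1 x.2 t)
      (hG.c1.comp (continuous_id.prodMk continuous_const)) x.1 hx1 y₁ hy₁
    have a2 := key (fun s => G (y₁, s)) (fun s => G2 (y₁, s)) (fun t => d2 y₁ t)
      (hG.c2.comp (continuous_const.prodMk continuous_id)) x.2 hx2 0 h0S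
    have a3 : G x - G (y₁, 0) = (G (x.1, x.2) - G (y₁, x.2)) + (G (y₁, x.2) - G (y₁, 0)) := by
      simp
    rw [a3]
    exact (abs_add_le _ _).trans (add_le_add a1 a2)
  have hIJ : Bd (fun x : ℝ × ℝ => I x.2 + J y₁) (T * (2 * m) + T * (2 * m)) :=
    ⟨(hIm.comp measurable_snd).add_const _, fun x =>
      (abs_add_le _ _).trans (add_le_add (hIb _) (hJb _))⟩
  calc ∫ x in Box m, |G x - G (y₁, 0)| ≤ ∫ x in Box m, (I x.2 + J y₁) :=
        setIntegral_mono_on (DTM_ibox m hGc) (DTM_ibox m hIJ) (DTM_box_meas m) hpt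
    _ = 2 * m * (∫ y in S, I y) + 2 * m * (2 * m * J y₁) := by
        rw [DTM_fub m hIJ]
        have e1 : ∫ y in S, (I y + J y₁) = (∫ y in S, I y) + 2 * m * J y₁ := by
          rw [integral_add hIi (integrable_const _)]
          rw [hSc]; ring
        show ∫ x in S, ∫ y in S, (I y + J y₁) = _
        rw [e1, hSc]; ring
    _ ≤ 2 * m * (∫ y in S, I y) + 2 * m * (∫ x in S, J x) := by
        have := mul_le_mul_of_nonneg_left hJy hm0.le
        linarith
    _ = _ := by rw [hI2, hJ2]; ring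

/-! ### The root cell -/

theorem DTM_det (k : ℕ) : (A0 k).det = 2 ^ k := by
  unfold A0 Mat.det
  simp only [mul_zero, sub_zero]
  exact Real.mul_self_sqrt (by positivity)

theorem DTM_tau (β₁ β₂ : ℝ) (h1 : 0 < β₁) (h2 : 0 < β₂) (k : ℕ) :
    tau β₁ β₂ 16 (A0 k) ≤ 2 := by
  unfold tau
  rw [DTM_det]
  have hs : √((2 : ℝ) ^ k) ^ 2 = 2 ^ k := Real.sq_sqrt (by positivity)
  have hk : (0 : ℝ) < 2 ^ k := by positivity
  have a : ∀ β : ℝ, 0 < β → ((16 : ℝ) ^ (-β)) ^ 2 ≤ 1 := by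
    intro β hβ
    have b1 : (16 : ℝ) ^ (-β) ≤ 1 := Real.rpow_le_one_of_one_le_of_nonpos (by norm_num) (by linarith)
    have b2 : 0 < (16 : ℝ) ^ (-β) := Real.rpow_pos_of_pos (by norm_num) _
    exact pow_le_one₀ b2.le b1
  have a1 := a β₁ h1
  have a2 := a β₂ h2
  rw [div_le_iff₀ hk]
  have e : (A0 k).a ^ 2 + (A0 k).b ^ 2 = 2 ^ k ∧ (A0 k).c ^ 2 + (A0 k).d ^ 2 = 2 ^ k := by
    unfold A0
    simp [hs]
  rw [e.1, e.2]
  nlinarith

theorem DTM_rho_nonneg (L t : ℝ) (hL : 1 ≤ L) (ht : 0 ≤ t) : 0 ≤ rho L t := by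
  unfold rho hS
  split_ifs with h
  · have h1 : 0 < 1 + t := by linarith
    have h2 : Real.log (1 + t)⁻¹ ≤ (1 + t)⁻¹ - 1 := Real.log_le_sub_one_of_pos (by positivity)
    rw [Real.log_inv] at h2
    have h3 := mul_le_mul_of_nonneg_left h2 h1.le
    have h4 : (1 + t) * ((1 + t)⁻¹ - 1) = 1 - (1 + t) := by field_simp
    rw [h4] at h3
    linarith
  · push Not at h
    have h1 : 0 < Real.exp (2 * L + 2) := Real.exp_pos _
    nlinarith

theorem DTM_nm_nonneg (x : ℝ × ℝ) : 0 ≤ nm x := Real.sqrt_nonneg _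

theorem DTM_abs_le_nm (x : ℝ × ℝ) : |x.1| ≤ nm x ∧ |x.2| ≤ nm x := by
  unfold nm
  exact ⟨Real.abs_le_sqrt (by nlinarith [sq_nonneg x.2]),
    Real.abs_le_sqrt (by nlinarith [sq_nonneg x.1])⟩

theorem DTM_NL_nonneg (β₁ β₂ L : ℝ) (x : ℝ × ℝ) : 0 ≤ NL β₁ β₂ L x := DTM_nm_nonneg _

theorem DTM_FL_le (β₁ β₂ L : ℝ) (A : Mat) (p : ℝ × ℝ) (c : ℝ)
    (h : TA A p ≤ c * NL β₁ β₂ L p ^ 2) (hdet : 0 < A.det) :
    FL β₁ β₂ L A p ≤ c * NL β₁ β₂ L p := by
  unfold FL
  have hN := DTM_NL_nonneg β₁ β₂ L p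
  rcases hN.eq_or_lt with h0 | h0
  · rw [← h0]; simp
  · rw [div_le_iff₀ h0]
    have hT : 0 ≤ TA A p := by unfold TA; positivity
    have h1 : max (√(TA A p) - √(40 / L) * NL β₁ β₂ L p) 0 ≤ √(TA A p) := by
      refine max_le ?_ (Real.sqrt_nonneg _)
      have : 0 ≤ √(40 / L) * NL β₁ β₂ L p := mul_nonneg (Real.sqrt_nonneg _) hN
      linarith
    have h2 : (max (√(TA A p) - √(40 / L) * NL β₁ β₂ L p) 0) ^ 2 ≤ √(TA A p) ^ 2 :=
      pow_le_pow_left₀ (le_max_right _ _) h1 2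
    rw [Real.sq_sqrt hT] at h2
    calc _ ≤ TA A p := h2
      _ ≤ c * NL β₁ β₂ L p ^ 2 := h
      _ = _ := by ring

theorem DTM_mu_abs {f : ℝ × ℝ → ℝ} (a : ℝ × ℝ) (A : Mat) :
    |mu f a A| ≤ mu (fun x => |f x|) a A := by
  unfold mu
  exact abs_integral_le_integral_abs

theorem DTM_mu_int {f : ℝ × ℝ → ℝ} {M : ℝ} (hf : Bd f M) (a : ℝ × ℝ) (A : Mat) :
    Integrable (fun z => f (a + A.ap z)) g2 :=
  DTM_ib _ (hf.1.comp ((DTM_ap_meas A).const_add a)) fun _ => hf.2 _

theorem DTM_mu_sub {f : ℝ × ℝ → ℝ} {M : ℝ} (hf : Bd f M) (a : ℝ × ℝ) (A : Mat) (c : ℝ) :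
    mu (fun x => f x - c) a A = mu f a A - c := by
  unfold mu
  rw [integral_sub (DTM_mu_int hf a A) (integrable_const _)]
  simp

theorem DTM_mu_mulsub {W G : ℝ × ℝ → ℝ} {M T : ℝ} (hW : Bd W M)
    (hWG : Bd (fun x => W x * G x) T) (a : ℝ × ℝ) (A : Mat) (c : ℝ) :
    mu (fun x => W x * (G x - c)) a A = mu (fun x => W x * G x) a A - c * mu W a A := by
  unfold mu
  have e : (fun z : ℝ × ℝ => W (a + A.ap z) * (G (a + A.ap z) - c)) =
      fun z => W (a + A.ap z) * G (a + A.ap z) - c * W (a + A.ap z) := by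
    funext z; ring
  rw [e, integral_sub (DTM_mu_int hWG a A) ((DTM_mu_int hW a A).const_mul _),
    integral_const_mul]

theorem DTM_mu_mono {f g : ℝ × ℝ → ℝ} {M T : ℝ} (hf : Bd f M) (hg : Bd g T)
    (h : ∀ x, f x ≤ g x) (a : ℝ × ℝ) (A : Mat) : mu f a A ≤ mu g a A :=
  integral_mono (DTM_mu_int hf a A) (DTM_mu_int hg a A) fun _ => h _

theorem DTM_dot (x y : ℝ × ℝ) : |dot x y| ≤ |x.1| * |y.1| + |x.2| * |y.2| := by
  unfold dot
  rw [← abs_mul, ← abs_mul]
  exact abs_add_le _ _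

theorem sDtm (hInd : SInd) (hAmg : SAmg) (hMzk : SMzk) (hMmu : SMmu) (hThp : SThp)
    (hNlp : SNlp) (hJen : SJen) : SDtm := by
  intro β₁ β₂ hβ₁ hβ₂ hβ D hD hNet Cv c Ch Cr hCv hc
  obtain ⟨Ce, hCe, hamg⟩ := hAmg Cv c hCv hc
  have hpw : ∀ β : ℝ, 0 < β → 0 < (2 : ℝ) ^ β - 1 := fun β hβ => by
    have := Real.one_lt_rpow (x := 2) (by norm_num) hβ
    linarith
  have hp1 := hpw β₁ hβ₁
  have hp2 := hpw β₂ hβ₂
  set Cb : ℝ := 1560 + 8020 / ((2 : ℝ) ^ β₁ - 1) + 8020 / ((2 : ℝ) ^ β₂ - 1) with hCb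
  have hq1 : 0 < 8020 / ((2 : ℝ) ^ β₁ - 1) := div_pos (by norm_num) hp1
  have hq2 : 0 < 8020 / ((2 : ℝ) ^ β₂ - 1) := div_pos (by norm_num) hp2
  have hCb0 : 1560 ≤ Cb := by rw [hCb]; linarith
  have hCb1 : 8020 ≤ Cb * ((2 : ℝ) ^ β₁ - 1) := by
    have : 8020 = 8020 / ((2 : ℝ) ^ β₁ - 1) * ((2 : ℝ) ^ β₁ - 1) := by field_simp
    rw [this]
    exact mul_le_mul_of_nonneg_right (by rw [hCb]; linarith) hp1.le
  have hCb2 : 8020 ≤ Cb * ((2 : ℝ) ^ β₂ - 1) := by
    have : 8020 = 8020 / ((2 : ℝ) ^ β₂ - 1) * ((2 : ℝ) ^ β₂ - 1) := by field_simp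
    rw [this]
    exact mul_le_mul_of_nonneg_right (by rw [hCb]; linarith) hp2.le
  set Ca : ℝ := Cb + 5000 with hCa
  clear_value Cb
  set C1 : ℝ := Ca * (17 / 16) + 80 with hC1
  set C2 : ℝ := Ce * (17 / 16) * (9 + |Ch|) with hC2
  have hC1p : 0 < C1 := by rw [hC1, hCa]; linarith
  have hC2p : 0 ≤ C2 := by rw [hC2]; positivity
  refine ⟨C1 + C2 + 8 * |Cr|, by positivity, ?_⟩
  intro m K Λ k hm hK hΛ hk1 hk2 hkK W hW hWp hW0 hWr hZ G G1 G2 T hG hT hGp hG1p hG2p
  have hfin := DTM_box_fin m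
  have hm0 : (0 : ℝ) < m := by exact_mod_cast hm
  have hK0 : 0 < √K := Real.sqrt_pos.mpr (by linarith)
  have hcns : Cns β₁ β₂ Ca Cb Ce K D Λ Cv :=
    { p1 := hβ₁, p2 := hβ₂, ps := hβ, hD := hD, net := hNet, cv := hCv, k := hK, cb := hCb0
      cb1 := hCb1, cb2 := hCb2, ca := le_refl _, ce := hCe
      amg := hamg K Λ (by linarith) hΛ }
  obtain ⟨n1, -, -, -, -, n6, -⟩ := hNlp β₁ β₂ hβ₁ hβ₂ hβ
  obtain ⟨t1, t2, -, -⟩ := hThp β₁ β₂ hβ₁ hβ₂ hβ
  have hdet := DTM_det k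
  have hdet0 : 0 < (A0 k).det := by rw [hdet]; positivity
  have htau := DTM_tau β₁ β₂ hβ₁ hβ₂ k
  have hT0 : 0 ≤ T := (abs_nonneg _).trans (hG.b0 0)
  -- the functions
  have bG : Bd G T := ⟨hG.c0.measurable, hG.b0⟩
  have bG1 : Bd G1 T := ⟨hG.c1.measurable, hG.b1⟩
  have bG2 : Bd G2 T := ⟨hG.c2.measurable, hG.b2⟩
  have bA1 : Bd (fun x => |G1 x|) T := ⟨bG1.1.abs, fun x => by rw [abs_abs]; exact bG1.2 x⟩
  have bA2 : Bd (fun x => |G2 x|) T := ⟨bG2.1.abs, fun x => by rw [abs_abs]; exact bG2.2 x⟩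
  have bWG : Bd (fun x => W x * G x) (√K * T) := ⟨hW.1.mul bG.1, fun x => by
    rw [abs_mul]; exact mul_le_mul (hW.2 x) (bG.2 x) (abs_nonneg _) hK0.le⟩
  set θ : ℝ × ℝ → ℝ := fun x => th β₁ β₂ 16 (G1 x, G2 x) with hθ
  obtain ⟨Bθ, bθ⟩ : ∃ B, Bd θ B := by
    have hcpt : IsCompact (Set.Icc (-T) T ×ˢ Set.Icc (-T) T) := isCompact_Icc.prod isCompact_Icc
    obtain ⟨B, hB⟩ := hcpt.exists_bound_of_continuousOn (t1 16 (by norm_num)).continuousOn
    refine ⟨B, (t1 16 (by norm_num)).measurable.comp (bG1.1.prodMk bG2.1), fun x => ?_⟩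
    exact hB (G1 x, G2 x) ⟨abs_le.mp (bG1.2 x), abs_le.mp (bG2.2 x)⟩
  have pθ : Per m θ := fun x => by
    rw [hθ]
    simp only
    rw [(hG1p x).1, (hG1p x).2, (hG2p x).1, (hG2p x).2]
    exact ⟨rfl, rfl⟩
  have hθN : ∀ x, NL β₁ β₂ 16 (G1 x, G2 x) ≤ θ x - 1 := fun x => by
    have := t2 16 (G1 x, G2 x) (by norm_num)
    rw [hθ]; linarith
  have hθ1 : ∀ x, 1 ≤ θ x := fun x => by
    have := hθN x
    have := DTM_NL_nonneg β₁ β₂ 16 (G1 x, G2 x)
    linarith
  have hθG : ∀ x, |G1 x| ≤ θ x ∧ |G2 x| ≤ θ x := fun x => by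
    have h1 := hθN x
    have h2 := (n1 16 (G1 x, G2 x) (by norm_num)).1
    have h3 := DTM_abs_le_nm (G1 x, G2 x)
    exact ⟨by linarith [h3.1], by linarith [h3.2]⟩
  -- the means
  set φ : ℝ × ℝ → ℝ := fun a => mu θ a (A0 k) with hφ
  have bφ : Bd φ Bθ := (hMmu θ Bθ bθ (A0 k)).1
  have hφ1 : ∀ a, 1 ≤ φ a := fun a => by
    have h1 : mu (fun _ => (1 : ℝ)) a (A0 k) ≤ φ a :=
      DTM_mu_mono (M := 1) ⟨measurable_const, fun _ => by simp⟩ bθ hθ1 a (A0 k)
    have h2 : mu (fun _ => (1 : ℝ)) a (A0 k) = 1 := by unfold mu; simp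
    linarith
  have hφI : ∫ a in Box m, φ a = ∫ x in Box m, θ x := DTM_avg m bθ pθ (A0 k)
  have hNφ : ∀ a, NL β₁ β₂ 16 (gp G1 G2 a (A0 k)) ≤ φ a := fun a => by
    have hq : Measurable (fun z : ℝ × ℝ => (G1 (a + (A0 k).ap z), G2 (a + (A0 k).ap z))) :=
      (bG1.1.comp ((DTM_ap_meas _).const_add a)).prodMk
        (bG2.1.comp ((DTM_ap_meas _).const_add a))
    have h1 := hJen β₁ β₂ 16 g2 (fun z => (G1 (a + (A0 k).ap z), G2 (a + (A0 k).ap z))) T hq
      (fun z => ⟨bG1.2 _, bG2.2 _⟩)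
    have h3 : Measurable fun z : ℝ × ℝ =>
        NL β₁ β₂ 16 (G1 (a + (A0 k).ap z), G2 (a + (A0 k).ap z)) := by
      have : Measurable fun q : ℝ × ℝ => NL β₁ β₂ 16 q := by
        unfold NL nm
        fun_prop
      exact this.comp hq
    have h2 : ∫ z, NL β₁ β₂ 16 (G1 (a + (A0 k).ap z), G2 (a + (A0 k).ap z)) ∂g2 ≤ φ a := by
      refine integral_mono (DTM_ib _ (M := Bθ) h3 fun z => ?_) (DTM_mu_int bθ a _) fun z => ?_
      · rw [abs_of_nonneg (DTM_NL_nonneg _ _ _ _)]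
        have := hθN (a + (A0 k).ap z)
        have h5 := (le_abs_self _).trans (bθ.2 (a + (A0 k).ap z))
        linarith
      · have := hθN (a + (A0 k).ap z)
        show _ ≤ θ (a + (A0 k).ap z)
        linarith
    exact h1.trans h2
  set Z : ℝ × ℝ → ℝ := fun a => Zk D Λ Cv W k a (A0 k) with hZdef
  obtain ⟨mZ, BZ, hBZ⟩ := hMzk W (√K) hW D hD Λ Cv (by linarith) k (A0 k)
  set x : ℝ × ℝ → ℝ := fun a => (1 + 1 / 16) * φ a with hx
  have hx1 : ∀ a, 1 ≤ x a := fun a => by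
    have := hφ1 a
    rw [hx]
    simp only
    linarith
  have mx : Measurable x := bφ.1.const_mul _
  -- the bound of the main induction
  set R : ℝ × ℝ → ℝ := fun a => Rr W G G1 G2 a (A0 k) with hR
  have hRb : ∀ a, |R a| ≤ √K * (C1 * φ a) +
      Ce / √K * (x a * (3 * K + 6 * k) + x a * (Real.log (Z a) - Real.log (x a))) := by
    intro a
    have h1 := hInd β₁ β₂ Ca Cb Ce K D Λ Cv hcns W G G1 G2 T hW hG hT k a (A0 k) hdet
      (htau.trans (by norm_num))
    refine h1.trans ?_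
    unfold Bnd
    have e1 : ph β₁ β₂ G1 G2 16 a (A0 k) = φ a := rfl
    rw [e1]
    have hN0 := DTM_NL_nonneg β₁ β₂ 16 (gp G1 G2 a (A0 k))
    have hN1 := hNφ a
    have hrho := DTM_rho_nonneg 16 _ (by norm_num) hN0
    have hF : FL β₁ β₂ 16 (A0 k) (gp G1 G2 a (A0 k)) ≤
        2 * NL β₁ β₂ 16 (gp G1 G2 a (A0 k)) := by
      refine DTM_FL_le β₁ β₂ 16 _ _ 2 ?_ hdet0
      exact (n6 16 (A0 k) _ (by norm_num) hdet0).trans
        (mul_le_mul_of_nonneg_right htau (sq_nonneg _))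
    have e2 : Ce / √K * ((1 + 1 / 16) * φ a) *
        (3 * K + 6 * k - Real.log ((1 + 1 / 16) * φ a) + Real.log (Zk D Λ Cv W k a (A0 k))) =
        Ce / √K * (x a * (3 * K + 6 * k) + x a * (Real.log (Z a) - Real.log (x a))) := by
      rw [hx, hZdef]; ring
    rw [e2]
    refine add_le_add (mul_le_mul_of_nonneg_left ?_ hK0.le) (le_refl _)
    rw [hC1]
    nlinarith
  -- the constant
  obtain ⟨c0, hc0⟩ := DTM_poin m hm hG
  have bGc : Bd (fun x => G x - c0) (T + |c0|) := ⟨bG.1.sub_const _, fun x =>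
    (abs_sub _ _).trans (add_le_add (bG.2 x) (le_refl _))⟩
  have bGa : Bd (fun x => |G x - c0|) (T + |c0|) :=
    ⟨bGc.1.abs, fun x => by rw [abs_abs]; exact bGc.2 x⟩
  have bWc : Bd (fun x => W x * (G x - c0)) (√K * (T + |c0|)) := ⟨hW.1.mul bGc.1, fun x => by
    rw [abs_mul]; exact mul_le_mul (hW.2 x) (bGc.2 x) (abs_nonneg _) hK0.le⟩
  have pWc : Per m (fun x => W x * (G x - c0)) := fun x => by
    simp only
    rw [(hWp x).1, (hWp x).2, (hGp x).1, (hGp x).2]
    exact ⟨rfl, rfl⟩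
  have pGa : Per m (fun x => |G x - c0|) := fun x => by
    simp only
    rw [(hGp x).1, (hGp x).2]
    exact ⟨rfl, rfl⟩
  have pA1 : Per m (fun x => |G1 x|) := fun x => by
    simp only
    rw [(hG1p x).1, (hG1p x).2]
    exact ⟨rfl, rfl⟩
  have pA2 : Per m (fun x => |G2 x|) := fun x => by
    simp only
    rw [(hG2p x).1, (hG2p x).2]
    exact ⟨rfl, rfl⟩
  have hWI : ∫ x in Box m, W x * G x = ∫ a in Box m, mu (fun x => W x * (G x - c0)) a (A0 k) := by
    rw [DTM_avg m bWc pWc (A0 k)]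
    have e : (fun x => W x * (G x - c0)) = fun x => W x * G x - c0 * W x := by
      funext x; ring
    rw [e, integral_sub (DTM_ibox m bWG) ((DTM_ibox m hW).const_mul _), integral_const_mul, hW0]
    ring
  set q : ℝ := |Cr| * √K / m with hq
  have hq0 : 0 ≤ q := by positivity
  have hqW : ∀ a, |mu W a (A0 k)| ≤ q ∧ |(mz W a (A0 k)).1| ≤ q ∧ |(mz W a (A0 k)).2| ≤ q := by
    intro a
    have h1 : Cr * √K / m ≤ q := by
      rw [hq]
      gcongr
      exact le_abs_self _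
    obtain ⟨w1, w2, w3⟩ := hWr a
    exact ⟨w1.trans h1, w2.trans h1, w3.trans h1⟩
  set s : ℝ := √(2 ^ k) with hs
  have hs0 : 0 ≤ s := Real.sqrt_nonneg _
  have hs2 : s ≤ 2 * m := by
    rw [hs]
    refine Real.sqrt_le_iff.mpr ⟨by positivity, ?_⟩
    nlinarith [hk2, sq_nonneg (m : ℝ)]
  have hpt : ∀ a, |mu (fun x => W x * (G x - c0)) a (A0 k)| ≤ |R a| +
      q * mu (fun x => |G x - c0|) a (A0 k) +
      q * s * (mu (fun x => |G1 x|) a (A0 k) + mu (fun x => |G2 x|) a (A0 k)) := by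
    intro a
    have e1 : mu (fun x => W x * (G x - c0)) a (A0 k) = R a +
        mu W a (A0 k) * mu (fun x => G x - c0) a (A0 k) +
        dot (mz W a (A0 k)) ((A0 k).tr (gp G1 G2 a (A0 k))) := by
      rw [DTM_mu_mulsub hW bWG, DTM_mu_sub bG, hR]
      unfold Rr
      ring
    rw [e1]
    have e2 : (A0 k).tr (gp G1 G2 a (A0 k)) = (s * mu G1 a (A0 k), s * mu G2 a (A0 k)) := by
      unfold Mat.tr A0 gp
      simp [hs]
    obtain ⟨w1, w2, w3⟩ := hqW a
    have h1 : |mu W a (A0 k) * mu (fun x => G x - c0) a (A0 k)| ≤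
        q * mu (fun x => |G x - c0|) a (A0 k) := by
      rw [abs_mul]
      exact mul_le_mul w1 (DTM_mu_abs a _) (abs_nonneg _) hq0
    have h2 : |dot (mz W a (A0 k)) ((A0 k).tr (gp G1 G2 a (A0 k)))| ≤
        q * s * (mu (fun x => |G1 x|) a (A0 k) + mu (fun x => |G2 x|) a (A0 k)) := by
      refine (DTM_dot _ _).trans ?_
      rw [e2]
      simp only [abs_mul, abs_of_nonneg hs0]
      have g1' : |(mz W a (A0 k)).1| * (s * |mu G1 a (A0 k)|) ≤
          q * (s * mu (fun x => |G1 x|) a (A0 k)) :=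
        mul_le_mul w2 (mul_le_mul_of_nonneg_left (DTM_mu_abs a _) hs0) (by positivity) hq0
      have g2' : |(mz W a (A0 k)).2| * (s * |mu G2 a (A0 k)|) ≤
          q * (s * mu (fun x => |G2 x|) a (A0 k)) :=
        mul_le_mul w3 (mul_le_mul_of_nonneg_left (DTM_mu_abs a _) hs0) (by positivity) hq0
      nlinarith
    calc |R a + mu W a (A0 k) * mu (fun x => G x - c0) a (A0 k) +
          dot (mz W a (A0 k)) ((A0 k).tr (gp G1 G2 a (A0 k)))| ≤
          |R a| + |mu W a (A0 k) * mu (fun x => G x - c0) a (A0 k)| +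
          |dot (mz W a (A0 k)) ((A0 k).tr (gp G1 G2 a (A0 k)))| := abs_add_three _ _ _
      _ ≤ _ := add_le_add (add_le_add (le_refl _) h1) h2
  -- integrability over the box
  have i1 : Integrable (fun a => √K * (C1 * φ a)) (volume.restrict (Box m)) :=
    ((DTM_ibox m bφ).const_mul _).const_mul _
  have ix : Integrable x (volume.restrict (Box m)) := (DTM_ibox m bφ).const_mul _
  have hlx : ∀ a, |Real.log (Z a) - Real.log (x a)| ≤ BZ + (1 + 1 / 16) * Bθ := by
    intro a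
    have l1 : 0 ≤ Real.log (Z a) := Real.log_nonneg (hBZ a).1
    have l2 : Real.log (Z a) ≤ BZ := (Real.log_le_sub_one_of_pos
      (by linarith [(hBZ a).1])).trans (by linarith [(hBZ a).2])
    have l3 : 0 ≤ Real.log (x a) := Real.log_nonneg (hx1 a)
    have l4 : Real.log (x a) ≤ (1 + 1 / 16) * Bθ := by
      have h1 := Real.log_le_sub_one_of_pos (show 0 < x a by linarith [hx1 a])
      have h2 := (le_abs_self _).trans (bφ.2 a)
      rw [hx] at h1 ⊢
      simp only at h1 ⊢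
      linarith
    rw [abs_le]
    constructor <;> linarith
  have mlx : Measurable fun a => Real.log (Z a) - Real.log (x a) :=
    (Real.measurable_log.comp mZ).sub (Real.measurable_log.comp mx)
  have hxb : ∀ a, x a ≤ (1 + 1 / 16) * Bθ := fun a => by
    have h2 := (le_abs_self _).trans (bφ.2 a)
    rw [hx]
    simp only
    linarith
  have i3 : Integrable (fun a => x a * (Real.log (Z a) - Real.log (x a)))
      (volume.restrict (Box m)) := by
    refine DTM_ib _ (M := (1 + 1 / 16) * Bθ * (BZ + (1 + 1 / 16) * Bθ)) (mx.mul mlx) fun a => ?_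
    rw [abs_mul]
    refine mul_le_mul ?_ (hlx a) (abs_nonneg _) (by linarith [hx1 a, hxb a])
    rw [abs_of_nonneg (by linarith [hx1 a])]
    exact hxb a
  have i2 : Integrable (fun a => Ce / √K * (x a * (3 * K + 6 * k) +
      x a * (Real.log (Z a) - Real.log (x a)))) (volume.restrict (Box m)) :=
    ((ix.mul_const _).add i3).const_mul _
  have i4 : Integrable (fun a => q * mu (fun x => |G x - c0|) a (A0 k))
      (volume.restrict (Box m)) := (DTM_ibox m (hMmu _ _ bGa (A0 k)).1).const_mul _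
  have i5 : Integrable (fun a => q * s * (mu (fun x => |G1 x|) a (A0 k) +
      mu (fun x => |G2 x|) a (A0 k))) (volume.restrict (Box m)) :=
    ((DTM_ibox m (hMmu _ _ bA1 (A0 k)).1).add (DTM_ibox m (hMmu _ _ bA2 (A0 k)).1)).const_mul _
  have i0 : Integrable (fun a => |mu (fun x => W x * (G x - c0)) a (A0 k)|)
      (volume.restrict (Box m)) := (DTM_ibox m (hMmu _ _ bWc (A0 k)).1).abs
  -- the Gibbs inequality
  have hbox : 0 < ∫ _a in Box m, (1 : ℝ) := by rw [DTM_box_one]; positivity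
  have hgib := DTM_gibbs (volume.restrict (Box m)) x Z (max BZ ((1 + 1 / 16) * Bθ)) mx mZ
    (fun a => ⟨hx1 a, (hxb a).trans (le_max_right _ _)⟩)
    (fun a => ⟨(hBZ a).1, (hBZ a).2.trans (le_max_left _ _)⟩) hbox
  set Ix := ∫ a in Box m, x a with hIx
  set Iθ := ∫ a in Box m, θ a with hIθ
  have hIx1 : 4 * (m : ℝ) ^ 2 ≤ Ix := by
    rw [← DTM_box_one m, hIx]
    exact integral_mono (integrable_const _) ix fun a => hx1 a
  have hIxθ : Ix = (1 + 1 / 16) * Iθ := by
    rw [hIx, hx, integral_const_mul, hφI]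
  have h4m : (0 : ℝ) < 4 * (m : ℝ) ^ 2 := by positivity
  have hIZ0 : 0 < ∫ a in Box m, Z a := by
    refine hbox.trans_le (integral_mono (integrable_const _) ?_ fun a => (hBZ a).1)
    exact DTM_ib _ (M := BZ) mZ fun a => by
      rw [abs_of_nonneg (by linarith [(hBZ a).1])]; exact (hBZ a).2
  have hlogd : Real.log (∫ a in Box m, Z a) - Real.log Ix ≤ |Ch| * K := by
    have l1 : Real.log (∫ a in Box m, Z a) ≤ Real.log (4 * (m : ℝ) ^ 2 * Real.exp (Ch * K)) :=
      Real.log_le_log hIZ0 hZ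
    rw [Real.log_mul h4m.ne' (Real.exp_pos _).ne', Real.log_exp] at l1
    have l2 : Real.log (4 * (m : ℝ) ^ 2) ≤ Real.log Ix := Real.log_le_log h4m hIx1
    have l3 : Ch * K ≤ |Ch| * K := mul_le_mul_of_nonneg_right (le_abs_self _) (by linarith)
    linarith
  have hIx0 : 0 < Ix := h4m.trans_le hIx1
  have hIθ0 : 0 < Iθ := by
    rw [hIxθ] at hIx0
    by_contra hcon
    push Not at hcon
    nlinarith
  have hgib2 : ∫ a in Box m, x a * (Real.log (Z a) - Real.log (x a)) ≤ Ix * (|Ch| * K) :=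
    hgib.trans (mul_le_mul_of_nonneg_left hlogd hIx0.le)
  -- the integral of the bound
  have hA1 : ∫ a in Box m, mu (fun x => |G1 x|) a (A0 k) ≤ Iθ := by
    rw [DTM_avg m bA1 pA1 (A0 k)]
    exact integral_mono (DTM_ibox m bA1) (DTM_ibox m bθ) fun x => (hθG x).1
  have hA2 : ∫ a in Box m, mu (fun x => |G2 x|) a (A0 k) ≤ Iθ := by
    rw [DTM_avg m bA2 pA2 (A0 k)]
    exact integral_mono (DTM_ibox m bA2) (DTM_ibox m bθ) fun x => (hθG x).2
  have hA3 : ∫ a in Box m, mu (fun x => |G x - c0|) a (A0 k) ≤ 4 * m * Iθ := by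
    rw [DTM_avg m bGa pGa (A0 k)]
    have g1' : ∫ x in Box m, |G1 x| ≤ Iθ :=
      integral_mono (DTM_ibox m bA1) (DTM_ibox m bθ) fun x => (hθG x).1
    have g2' : ∫ x in Box m, |G2 x| ≤ Iθ :=
      integral_mono (DTM_ibox m bA2) (DTM_ibox m bθ) fun x => (hθG x).2
    refine hc0.trans ?_
    nlinarith
  have step1 : |∫ x in Box m, W x * G x| ≤
      ∫ a in Box m, (√K * (C1 * φ a) + Ce / √K * (x a * (3 * K + 6 * k) +
        x a * (Real.log (Z a) - Real.log (x a))) +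
        q * mu (fun x => |G x - c0|) a (A0 k) +
        q * s * (mu (fun x => |G1 x|) a (A0 k) + mu (fun x => |G2 x|) a (A0 k))) := by
    rw [hWI]
    refine (abs_integral_le_integral_abs).trans ?_
    refine integral_mono i0 (((i1.add i2).add i4).add i5) fun a => ?_
    refine (hpt a).trans ?_
    have := hRb a
    linarith
  have step2 : ∫ a in Box m, (√K * (C1 * φ a) + Ce / √K * (x a * (3 * K + 6 * k) +
        x a * (Real.log (Z a) - Real.log (x a))) +
        q * mu (fun x => |G x - c0|) a (A0 k) +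
        q * s * (mu (fun x => |G1 x|) a (A0 k) + mu (fun x => |G2 x|) a (A0 k))) =
      √K * (C1 * Iθ) + Ce / √K * (Ix * (3 * K + 6 * k) +
        ∫ a in Box m, x a * (Real.log (Z a) - Real.log (x a))) +
        q * (∫ a in Box m, mu (fun x => |G x - c0|) a (A0 k)) +
        q * s * ((∫ a in Box m, mu (fun x => |G1 x|) a (A0 k)) +
          ∫ a in Box m, mu (fun x => |G2 x|) a (A0 k)) := by
    have e1 := integral_add ((i1.add i2).add i4) i5
    have e2 := integral_add (i1.add i2) i4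
    have e3 := integral_add i1 i2
    have e4 := integral_add (ix.mul_const (3 * K + 6 * k)) i3
    have e5 := integral_add (DTM_ibox m (hMmu _ _ bA1 (A0 k)).1)
      (DTM_ibox m (hMmu _ _ bA2 (A0 k)).1)
    simp only [Pi.add_apply] at e1 e2 e3 e4 e5
    rw [e1, e2, e3]
    simp only [integral_const_mul]
    rw [e4, e5, integral_mul_const, hφI]
  rw [step2] at step1
  refine step1.trans ?_
  have b2 : Ce / √K * (Ix * (3 * K + 6 * k) +
      ∫ a in Box m, x a * (Real.log (Z a) - Real.log (x a))) ≤ √K * (C2 * Iθ) := by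
    have hCeK : 0 ≤ Ce / √K := by positivity
    have hk0 : (0 : ℝ) ≤ k := Nat.cast_nonneg _
    have u1 : Ix * (3 * K + 6 * k) ≤ Ix * (9 * K) :=
      mul_le_mul_of_nonneg_left (by linarith) hIx0.le
    have u2 : Ix * (3 * K + 6 * k) + ∫ a in Box m, x a * (Real.log (Z a) - Real.log (x a)) ≤
        Ix * ((9 + |Ch|) * K) := by linarith
    refine (mul_le_mul_of_nonneg_left u2 hCeK).trans (le_of_eq ?_)
    rw [hIxθ, hC2]
    have hsq : √K * √K = K := Real.mul_self_sqrt (by linarith)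
    field_simp
    rw [Real.sq_sqrt (by linarith)]
    ring
  have b3 : q * (∫ a in Box m, mu (fun x => |G x - c0|) a (A0 k)) ≤ √K * (4 * |Cr| * Iθ) := by
    refine (mul_le_mul_of_nonneg_left hA3 hq0).trans (le_of_eq ?_)
    rw [hq]
    field_simp
  have b4 : q * s * ((∫ a in Box m, mu (fun x => |G1 x|) a (A0 k)) +
      ∫ a in Box m, mu (fun x => |G2 x|) a (A0 k)) ≤ √K * (4 * |Cr| * Iθ) := by
    have v1 : (∫ a in Box m, mu (fun x => |G1 x|) a (A0 k)) +
      ∫ a in Box m, mu (fun x => |G2 x|) a (A0 k) ≤ 2 * Iθ := by linarith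
    have v2 : q * s ≤ q * (2 * m) := mul_le_mul_of_nonneg_left hs2 hq0
    calc _ ≤ q * s * (2 * Iθ) := mul_le_mul_of_nonneg_left v1 (mul_nonneg hq0 hs0)
      _ ≤ q * (2 * m) * (2 * Iθ) := mul_le_mul_of_nonneg_right v2 (by linarith)
      _ = √K * (4 * |Cr| * Iθ) := by
        rw [hq]
        field_simp
        ring
  calc _ ≤ √K * (C1 * Iθ) + √K * (C2 * Iθ) + √K * (4 * |Cr| * Iθ) + √K * (4 * |Cr| * Iθ) := by
        linarith
    _ = (C1 + C2 + 8 * |Cr|) * √K * Iθ := by ring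

end Pool.UMD
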