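import Pool.Agent.H37.UMD.Stmts2

/-!
# Ultimate matching: module DUA, the dual inequality holds with large probability
-/

set_option autoImplicit false

open MeasureTheory ProbabilityTheory Finset

namespace Pool.UMD

theorem DUA_frac_mono {n m : ℕ}
    {E F : (Fin n → Fin m × Fin m) → (Fin n → Fin m × Fin m) → Prop}
    (h : ∀ cx cy, E cx cy → F cx cy) : Pool.UMC.frac n m E ≤ Pool.UMC.frac n m F := by
  classical
  unfold Pool.UMC.frac
  refine div_le_div_of_nonneg_right ?_ (by positivity)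
  have : (univ.filter fun w : (Fin n → Fin m × Fin m) × (Fin n → Fin m × Fin m) =>
      E w.1 w.2).card ≤ (univ.filter fun w : (Fin n → Fin m × Fin m) × (Fin n → Fin m × Fin m) =>
      F w.1 w.2).card := by
    refine card_le_card fun w hw => ?_
    rw [mem_filter] at hw ⊢
    exact ⟨hw.1, h _ _ hw.2⟩
  exact_mod_cast this

theorem DUA_psi_nonneg (β s : ℝ) : 0 ≤ psi β s := by
  unfold psi
  have : 0 ≤ Real.log (1 + s ^ 2) := Real.log_nonneg (by nlinarith [sq_nonneg s])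
  positivity

theorem sDua (hGde : SGde) (hDgr : SDgr) (hNet : SNet) : SDua := by
  intro β₁ β₂ hβ₁ hβ₂ hβ p
  obtain ⟨D, hD, hDn⟩ := hNet
  obtain ⟨Cv, c, Ch, Cr, hCv, hc, hp⟩ := hGde D hD hDn.1
  obtain ⟨c₁, hc₁, hg⟩ := hp p
  obtain ⟨C', hC', hd⟩ := hDgr β₁ β₂ hβ₁ hβ₂ hβ D hD hDn Cv c Ch Cr hCv hc
  refine ⟨max c₁ 15, lt_max_of_lt_left hc₁, ?_⟩
  intro c₀ hc₀
  have hc₀1 : c₁ ≤ c₀ := (le_max_left _ _).trans hc₀
  have hc₀2 : 15 ≤ c₀ := (le_max_right _ _).trans hc₀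
  refine ⟨C' * (4 * c₀), by positivity, ?_⟩
  intro n k hn h1 h2
  have hlog : 69 / 100 ≤ Real.log n := by
    have hn' : (2 : ℝ) ≤ n := by exact_mod_cast hn
    have := Real.log_le_log (by norm_num) hn'
    have := Real.log_two_gt_d9
    linarith
  have hK1 : c₁ * Real.log n ≤ n / (4 : ℝ) ^ k :=
    (mul_le_mul_of_nonneg_right hc₀1 (by linarith)).trans h1
  have hK2 : 15 * Real.log n ≤ n / (4 : ℝ) ^ k :=
    (mul_le_mul_of_nonneg_right hc₀2 (by linarith)).trans h1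
  obtain ⟨Λ, hΛ, hfr⟩ := hg n k _ hn rfl hK1
  refine le_trans (DUA_frac_mono ?_) hfr
  intro cx cy hE hGd
  refine hE fun F => ?_
  refine (hd n k _ Λ hn rfl (by linarith) (by linarith) hΛ cx cy hGd F).trans ?_
  have hS : 0 ≤ (4 : ℝ) ^ k + Ed1 (2 ^ k) F (psi β₁) + Ed2 (2 ^ k) F (psi β₂) := by
    have a1 : 0 ≤ Ed1 (2 ^ k) F (psi β₁) :=
      sum_nonneg fun _ _ => sum_nonneg fun _ _ => DUA_psi_nonneg _ _
    have a2 : 0 ≤ Ed2 (2 ^ k) F (psi β₂) :=
      sum_nonneg fun _ _ => sum_nonneg fun _ _ => DUA_psi_nonneg _ _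
    positivity
  refine mul_le_mul_of_nonneg_right ?_ hS
  calc C' * (n / (4 : ℝ) ^ k) ≤ C' * (4 * c₀ * Real.log n) :=
        mul_le_mul_of_nonneg_left h2 hC'.le
    _ = _ := by ring

end Pool.UMD
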