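import Pool.Agent.H37.UMD.Stmts

/-!
# Ultimate matching: module GIB, the Gibbs variational inequality
-/

set_option autoImplicit false

open MeasureTheory ProbabilityTheory

namespace Pool.UMD

theorem GIB_int {h : ℝ → ℝ} {C : ℝ} (hm : Measurable h) (hb : ∀ g, |h g| ≤ C) :
    Integrable h g1 :=
  Integrable.of_bound hm.aestronglyMeasurable C (ae_of_all _ fun g => by
    rw [Real.norm_eq_abs]; exact hb g)

theorem sGib : SGib := by
  intro f X B hf hX hfb hXb
  have hB : 1 ≤ B := (hfb 0).1.trans (hfb 0).2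
  have hi1 : Integrable f g1 := GIB_int (C := B) hf fun g => by
    rw [abs_of_nonneg (by linarith [(hfb g).1])]; exact (hfb g).2
  have hi2 : Integrable (fun g => Real.exp (X g)) g1 := by
    refine GIB_int (C := Real.exp B) (Real.measurable_exp.comp hX) fun g => ?_
    rw [abs_of_pos (Real.exp_pos _)]
    exact Real.exp_le_exp.mpr ((le_abs_self _).trans (hXb g))
  have hlog : ∀ g, 0 ≤ Real.log (f g) ∧ Real.log (f g) ≤ B := fun g =>
    ⟨Real.log_nonneg (hfb g).1, (Real.log_le_sub_one_of_pos (by linarith [(hfb g).1])).trans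
      (by linarith [(hfb g).2])⟩
  have hi3 : Integrable (fun g => f g * (X g - Real.log (f g))) g1 := by
    refine GIB_int (C := B * (2 * B)) (hf.mul (hX.sub (Real.measurable_log.comp hf))) fun g => ?_
    rw [abs_mul]
    refine mul_le_mul ?_ ?_ (abs_nonneg _) (by linarith)
    · rw [abs_of_nonneg (by linarith [(hfb g).1])]; exact (hfb g).2
    · refine (abs_sub _ _).trans ?_
      have h1 := hXb g
      have h2 : |Real.log (f g)| ≤ B := by rw [abs_of_nonneg (hlog g).1]; exact (hlog g).2
      linarith
  have hI : 1 ≤ ∫ g, f g ∂g1 := by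
    have h1 : ∫ _g : ℝ, (1 : ℝ) ∂g1 ≤ ∫ g, f g ∂g1 :=
      integral_mono (integrable_const _) hi1 fun g => (hfb g).1
    simpa using h1
  have hE : 0 < ∫ g, Real.exp (X g) ∂g1 := by
    have h1 : ∫ _g : ℝ, Real.exp (-B) ∂g1 ≤ ∫ g, Real.exp (X g) ∂g1 :=
      integral_mono (integrable_const _) hi2 fun g => Real.exp_le_exp.mpr
        (by have := neg_abs_le (X g); have := hXb g; linarith)
    have h2 : ∫ _g : ℝ, Real.exp (-B) ∂g1 = Real.exp (-B) := by simp
    rw [h2] at h1
    exact (Real.exp_pos _).trans_le h1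
  set I := ∫ g, f g ∂g1 with hIdef
  set E := ∫ g, Real.exp (X g) ∂g1 with hEdef
  have hI0 : 0 < I := by linarith
  have key : ∀ g, f g * (X g - Real.log (f g)) ≤
      (I / E) * Real.exp (X g) - f g + (Real.log E - Real.log I) * f g := by
    intro g
    have hf0 : 0 < f g := by linarith [(hfb g).1]
    have h1 : Real.log (Real.exp (X g) * I / (f g * E)) ≤ Real.exp (X g) * I / (f g * E) - 1 :=
      Real.log_le_sub_one_of_pos (by positivity)
    rw [Real.log_div (by positivity) (by positivity), Real.log_mul (by positivity) hI0.ne',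
      Real.log_exp, Real.log_mul hf0.ne' hE.ne'] at h1
    have h2 := mul_le_mul_of_nonneg_left h1 hf0.le
    have h3 : f g * (Real.exp (X g) * I / (f g * E) - 1) = (I / E) * Real.exp (X g) - f g := by
      field_simp
    rw [h3] at h2
    nlinarith [h2]
  have hi4 : Integrable (fun g => (I / E) * Real.exp (X g) - f g +
      (Real.log E - Real.log I) * f g) g1 :=
    ((hi2.const_mul _).sub hi1).add (hi1.const_mul _)
  calc ∫ g, f g * (X g - Real.log (f g)) ∂g1 ≤ ∫ g, ((I / E) * Real.exp (X g) - f g +
      (Real.log E - Real.log I) * f g) ∂g1 := integral_mono hi3 hi4 key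
    _ = (I / E) * E - I + (Real.log E - Real.log I) * I := by
      have e1 : ∫ g, ((I / E) * Real.exp (X g) - f g + (Real.log E - Real.log I) * f g) ∂g1 =
          ∫ g, ((I / E) * Real.exp (X g) - f g) ∂g1 + ∫ g, (Real.log E - Real.log I) * f g ∂g1 :=
        integral_add ((hi2.const_mul _).sub hi1) (hi1.const_mul _)
      rw [e1, integral_sub (hi2.const_mul _) hi1, integral_const_mul, integral_const_mul]
    _ = I * (Real.log E - Real.log I) := by
      rw [div_mul_cancel₀ _ hE.ne']; ring

end Pool.UMD
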